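import Pool.Agent.H715R3.MedvE

set_option autoImplicit false

namespace Pool.Agent.Results.MP_474f70_lc.MissingDegree

open Encodable

/-- The group element represented by a word over the generators and their inverses. -/
def wordVal {G : Type} [Group G] {r : ℕ} (gens : Fin r → G) (w : List (Fin r × Bool)) : G :=
  (w.map fun p => cond p.2 (gens p.1) (gens p.1)⁻¹).prod

/-- `G` has a presentation with generators `gens` and an r.e. set `R` of relators: `gens` generates
`G` and the kernel of the evaluation map from the free group is the normal closure of `R`. -/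
def RecursivelyPresented {G : Type} [Group G] {r : ℕ} (gens : Fin r → G) : Prop :=
  Subgroup.closure (Set.range gens) = ⊤ ∧
  ∃ R : Set (List (Fin r × Bool)), REPred (fun w => w ∈ R) ∧
    (FreeGroup.lift gens : FreeGroup (Fin r) →* G).ker =
      Subgroup.normalClosure (FreeGroup.mk '' R)

/-- `x` contains the word pattern `p` (a finite list of prescriptions `w ↦ a`): some translate of
`p` occurs in `x`. -/
def Contains {G : Type} [Group G] {r : ℕ} (gens : Fin r → G) {k : ℕ} (x : G → Fin k)
    (p : List (List (Fin r × Bool) × Fin k)) : Prop :=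
  ∃ g : G, ∀ q ∈ p, x (g * wordVal gens q.1) = q.2

/-- `X` is an effective subshift: nonempty, closed, shift-invariant, and the set of all
configurations containing no pattern of some r.e. set `F` of word patterns. -/
def IsEffectiveSubshift {G : Type} [Group G] {r : ℕ} (gens : Fin r → G) {k : ℕ}
    (X : Set (G → Fin k)) : Prop :=
  X.Nonempty ∧ IsClosed X ∧ (∀ (g : G), ∀ x ∈ X, (fun h => x (g⁻¹ * h)) ∈ X) ∧
  ∃ F : Set (List (List (Fin r × Bool) × Fin k)), REPred (fun p => p ∈ F) ∧
    X = {x | ∀ p ∈ F, ¬ Contains gens x p}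

/-- Initial segment of length `m`. -/
def seg (y : ℕ → ℕ) (m : ℕ) : List ℕ := List.ofFn fun j : Fin m => y j.val

/-- Medvedev reducibility `P ≤_M Q`: some Turing functional (given by a computable monotone map on
finite strings) is defined on every element of `Q` and maps it to an element of `P`. -/
def MedvedevLe (P Q : Set (ℕ → ℕ)) : Prop :=
  ∃ f : List ℕ → List ℕ, Computable f ∧ (∀ σ τ : List ℕ, σ <+: τ → f σ <+: f τ) ∧
    ∀ y ∈ Q, ∃ x ∈ P, ∀ n : ℕ, ∃ m : ℕ, ∀ i < n, (f (seg y m))[i]? = some (x i)

/-- `P` is a `Π⁰₁` subset of Cantor space. -/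
def IsPi01 (P : Set (ℕ → ℕ)) : Prop :=
  ∃ c : List ℕ → Bool, Computable c ∧
    P = {x | (∀ n, x n ≤ 1) ∧ ∀ m : ℕ, c (seg x m) = false}

/-- The set of pullbacks `(x(w))_{w ∈ S^*}`, `x ∈ X`, coded on `ℕ` through the standard computable
coding of words (value `0` at numbers that code no word). -/
def pull {G : Type} [Group G] {r : ℕ} (gens : Fin r → G) {k : ℕ} (X : Set (G → Fin k)) :
    Set (ℕ → ℕ) :=
  {y | ∃ x ∈ X, ∀ n : ℕ, y n = (decode n : Option (List (Fin r × Bool))).elim 0
    (fun w => (x (wordVal gens w)).val)}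

/-- It is not true that for every infinite, finitely generated, recursively presented group every
nonempty `Π⁰₁` class has the Medvedev degree of some effective subshift on the group. -/
theorem result : ¬ ∀ (G : Type) [Group G] [Infinite G] (r : ℕ) (gens : Fin r → G),
    RecursivelyPresented gens →
    ∀ P : Set (ℕ → ℕ), IsPi01 P → P.Nonempty →
      ∃ (k : ℕ) (X : Set (G → Fin k)), IsEffectiveSubshift gens X ∧
        MedvedevLe P (pull gens X) ∧ MedvedevLe (pull gens X) P := by
  classical
  intro h
  have hrp : RecursivelyPresented Pool.Agent.H715R3.Medv.gens := by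
    refine ⟨Pool.Agent.H715R3.Medv.gens_closure, Set.range Pool.Agent.H715R3.Medv.rel, ?_, ?_⟩
    · have hR : Computable₂ (fun (w : List (Fin 36 × Bool)) (n : ℕ) =>
          decide (Pool.Agent.H715R3.Medv.rel n = w)) := by
        have h1 : PrimrecPred (fun p : List (Fin 36 × Bool) × ℕ =>
            Pool.Agent.H715R3.Medv.rel p.2 = p.1) :=
          Primrec.eq.comp (Pool.Agent.H715R3.Medv.rel_primrec.comp Primrec.snd) Primrec.fst
        exact h1.decide.to_comp
      refine REPred.of_eq (Pool.Agent.H715R3.Medv.rePred_exists hR) ?_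
      intro w
      simp [Set.mem_range]
    · have h1 : (FreeGroup.lift Pool.Agent.H715R3.Medv.gens :
          FreeGroup (Fin 36) →* Pool.Agent.H715R3.Medv.GG) =
          PresentedGroup.mk Pool.Agent.H715R3.Medv.rels := by
        ext g
        simp [Pool.Agent.H715R3.Medv.gens, PresentedGroup.of]
      rw [h1]
      have h2 : (PresentedGroup.mk Pool.Agent.H715R3.Medv.rels).ker =
          Subgroup.normalClosure Pool.Agent.H715R3.Medv.rels := QuotientGroup.ker_mk' _
      rw [h2]
      congr 1
      ext x
      simp [Pool.Agent.H715R3.Medv.rels]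
  let c : List ℕ → Bool := fun τ => decide (Pool.Agent.H715R3.Medv.Kill τ)
  have hc : Computable c := Pool.Agent.H715R3.Medv.Kill_primrec.decide.to_comp
  have hPP : IsPi01 Pool.Agent.H715R3.Medv.PP := by
    refine ⟨c, hc, ?_⟩
    ext z
    constructor
    · rintro ⟨a, b⟩; exact ⟨a, fun m => decide_eq_false (b m)⟩
    · rintro ⟨a, b⟩; exact ⟨a, fun m => of_decide_eq_false (b m)⟩
  obtain ⟨k, X, hX, ⟨g, hg, hgm, hgr⟩, ⟨f, hf, hfm, hfr⟩⟩ :=
    h Pool.Agent.H715R3.Medv.GG 36 Pool.Agent.H715R3.Medv.gens hrp
      Pool.Agent.H715R3.Medv.PP hPP Pool.Agent.H715R3.Medv.PP_nonempty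
  by_cases hcst : ∃ x ∈ X, ∀ a, x a = x 1
  · obtain ⟨x, hx, hx1⟩ := hcst
    let y : ℕ → ℕ := fun n => (Encodable.decode n : Option (List (Fin 36 × Bool))).elim 0
      (fun _ => (x 1).val)
    have hy : Computable y := by
      have hd : Computable (fun n : ℕ => (Encodable.decode n : Option (List (Fin 36 × Bool)))) :=
        Computable.decode
      have h3 : Computable₂ (fun (_ : ℕ) (_ : List (Fin 36 × Bool)) => (x 1).val) :=
        Computable.const _
      refine Computable.of_eq (Computable.option_casesOn hd (Computable.const 0) h3) ?_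
      intro n
      simp only [y]
      cases (Encodable.decode n : Option (List (Fin 36 × Bool))) <;> rfl
    obtain ⟨z, hz, hzr⟩ := hgr y ⟨x, hx, fun n => by
      simp only [y]
      congr 1
      funext w
      exact congrArg Fin.val (hx1 _).symm⟩
    exact Pool.Agent.H715R3.Medv.no_computable_reduction hg hgm hy hz hzr
  · apply Pool.Agent.H715R3.Medv.no_reduction hf hfm
    intro z hz
    obtain ⟨y, ⟨x, hx, hyx⟩, hyr⟩ := hfr z hz
    refine ⟨y, fun a => (x a).val, fun w => ?_, ?_, hyr⟩
    · rw [hyx, Encodable.encodek]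
      rfl
    · by_contra hcon
      push Not at hcon
      exact hcst ⟨x, hx, fun a => Fin.ext (hcon a)⟩

end Pool.Agent.Results.MP_474f70_lc.MissingDegree
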